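import Pool.Agent.P.MP_a9a441_nt.Gowers

/-! Local Fourier uniformity of the Liouville function of `K[X]`, `K` finite of characteristic
two. -/

namespace Pool.Agent.P.MP_a9a441_nt.Old.Fourier

open Polynomial Finset Pool.Agent.P.MP_a1177c_nt.HL Pool.Agent.P.MP_a9a441_nt
open scoped BigOperators

theorem char_real {K : Type*} [Field K] [CharP K 2] (χ : AddChar K[X] ℂ) :
    ∃ c : K[X] → ℝ, (∀ a, |c a| ≤ 1) ∧ (∀ a b, c (a + b) = c a * c b) ∧ ∀ a, χ a = c a := by
  have h1 : ∀ a, χ a = 1 ∨ χ a = -1 := fun a => by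
    refine mul_self_eq_one_iff.1 ?_
    rw [← AddChar.map_add_eq_mul, CharTwo.add_self_eq_zero, AddChar.map_zero_eq_one]
  have h2 : ∀ a, χ a = ((χ a).re : ℝ) := fun a => by
    rcases h1 a with h | h <;> simp [h]
  refine ⟨fun a => (χ a).re, fun a => ?_, fun a b => ?_, h2⟩
  · rcases h1 a with h | h <;> simp [h]
  · apply Complex.ofReal_injective
    rw [Complex.ofReal_mul, ← h2, ← h2, ← h2, AddChar.map_add_eq_mul]

theorem expect_two {K : Type*} [Field K] [Fintype K] (H : ℕ) (F : K[X] → ℝ) :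
    𝔼 h ∈ Fintype.piFinset fun _ : Fin 2 => Pl K H, F (∑ i, h i) = 𝔼 a ∈ Pl K H, F a := by
  have h1 : 𝔼 h ∈ Fintype.piFinset fun _ : Fin 2 => Pl K H, F (∑ i, h i) =
      𝔼 p ∈ Pl K H ×ˢ Pl K H, F (p.2 + p.1) := by
    refine Finset.expect_nbij' (fun h => (h 1, h 0)) (fun p => ![p.2, p.1]) (fun h hh => ?_)
      (fun p hp => ?_) (fun h _ => ?_) (fun p _ => ?_) (fun h _ => ?_)
    · exact Finset.mem_product.2 ⟨Fintype.mem_piFinset.1 hh 1, Fintype.mem_piFinset.1 hh 0⟩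
    · refine Fintype.mem_piFinset.2 fun i => ?_
      fin_cases i
      · exact (Finset.mem_product.1 hp).2
      · exact (Finset.mem_product.1 hp).1
    · funext i; fin_cases i <;> rfl
    · rfl
    · rw [Fin.sum_univ_two]
  rw [h1, Finset.expect_product' (f := fun a b => F (b + a)),
    Finset.expect_congr rfl (g := fun _ => 𝔼 a ∈ Pl K H, F a),
    Finset.expect_const ⟨0, zero_mem_Pl H⟩]
  intro w hw
  rw [Finset.expect_eq_sum_div_card, Finset.expect_eq_sum_div_card, sum_Pl_shift hw F]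

theorem result (K : Type*) [Field K] [Fintype K] [CharP K 2] (ε : ℝ) (hε : 0 < ε) :
    ∃ H₀ : ℕ, ∀ n H : ℕ, H₀ ≤ H → H ≤ n →
      ∑ g ∈ Mn K n, ⨆ χ : AddChar K[X] ℂ, ‖∑ a ∈ Pl K H, (lam (g + a) : ℂ) * χ a‖ ≤
        ε * (Fintype.card K : ℝ) ^ n * (Fintype.card K : ℝ) ^ H := by
  obtain ⟨H₀, n₀, h₀⟩ := uniform (K := K) 1 hε
  refine ⟨H₀ + n₀, fun n H hH hHn => ?_⟩
  obtain ⟨Bd, hB, hBd⟩ := h₀ n (by omega) H (by omega) hHn
  have hq : (0 : ℝ) < Fintype.card K := by exact_mod_cast Fintype.card_pos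
  rw [Finset.expect_eq_sum_div_card, card_Mn, div_le_iff₀ (by positivity)] at hB
  push_cast at hB
  refine le_trans ?_ (mul_le_mul_of_nonneg_right hB (by positivity))
  rw [Finset.sum_mul]
  refine Finset.sum_le_sum fun g hg => ciSup_le fun χ => ?_
  obtain ⟨c, hc1, hc2, hc3⟩ := char_real χ
  have h1 := hBd g hg (fun j h => c (h (1 - j))) (fun _ _ => hc1 _) (fun j h z => by
    fin_cases j <;> simp)
  have h2 : ∀ h : Fin 2 → K[X], lam (g + ∑ i, h i) * ∏ j : Fin 2, c (h (1 - j)) =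
      (fun a => lam (g + a) * c a) (∑ i, h i) := fun h => by
    simp only [Fin.sum_univ_two, Fin.prod_univ_two, hc2]
    simp [mul_comm]
  simp only [h2] at h1
  rw [expect_two H (fun a => lam (g + a) * c a), Finset.expect_eq_sum_div_card, card_Pl, abs_div,
    abs_of_pos (a := ((Fintype.card K ^ H : ℕ) : ℝ)) (by positivity),
    div_le_iff₀ (by positivity)] at h1
  push_cast at h1
  refine le_trans (le_of_eq ?_) h1
  rw [← Real.norm_eq_abs, ← Complex.norm_real]
  push_cast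
  simp only [hc3]

end Pool.Agent.P.MP_a9a441_nt.Old.Fourier
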